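import Pool.Agent.N658.FF.Stm2

/-! # The number of low energy states (job B6 of the project FF) -/

set_option autoImplicit false

noncomputable section

namespace Pool.Agent.N281.FF

open Pool.Agent.TH235.PP Pool.Agent.Results.MP_953b23_mp.ThermalCriterion Pool.Agent.N658.FF

section low

open scoped BigOperators InnerProductSpace Matrix ComplexOrder



theorem low {n : Type} [Fintype n] [DecidableEq n] {H : Matrix n n ℂ} (hH : H.IsHermitian)
    (E : ℝ) : ∃ S : Submodule ℂ (EuclideanSpace ℂ n), Module.finrank ℂ S = numStates hH E ∧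
      ∀ u ∈ S, (ip u.ofLp (H *ᵥ u.ofLp)).re ≤ E * ‖u‖ ^ 2 := by
  classical
  set b := hH.eigenvectorBasis with hb
  set f : {j : n // hH.eigenvalues j ≤ E} → EuclideanSpace ℂ n := fun j => b j.1 with hf
  refine ⟨Submodule.span ℂ (Set.range f), ?_, ?_⟩
  · have hli : LinearIndependent ℂ f :=
      (b.orthonormal.linearIndependent).comp _ Subtype.val_injective
    rw [finrank_span_eq_card hli, Fintype.card_subtype]
    rfl
  · intro u hu
    have h0 : ∀ j, E < hH.eigenvalues j → ⟪b j, u⟫_ℂ = 0 := by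
      intro j hj
      induction hu using Submodule.span_induction with
      | mem x hx =>
        obtain ⟨i, rfl⟩ := hx
        have hne : j ≠ i.1 := by
          intro he
          have := i.2
          rw [← he] at this
          linarith
        exact b.orthonormal.2 hne
      | zero => exact inner_zero_right _
      | add x y _ _ hx hy => rw [inner_add_right, hx, hy, add_zero]
      | smul c x _ hx => rw [inner_smul_right, hx, mul_zero]
    set T := Matrix.toEuclideanLin H with hT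
    have hTb : ∀ j, T (b j) = (hH.eigenvalues j : ℂ) • b j := by
      intro j
      have h1 : T (b j) = WithLp.toLp 2 (H *ᵥ (b j).ofLp) := rfl
      have h2 := hH.mulVec_eigenvectorBasis j
      rw [h1]
      rw [hb]
      rw [h2]
      rfl
    have hsum : T u = ∑ j, (⟪b j, u⟫_ℂ * (hH.eigenvalues j : ℂ)) • b j := by
      conv_lhs => rw [← b.sum_repr' u]
      rw [map_sum]
      refine Finset.sum_congr rfl fun j _ => ?_
      rw [map_smul, hTb, smul_smul]
    have hip : ip u.ofLp (H *ᵥ u.ofLp) = ⟪u, T u⟫_ℂ := by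
      rw [ip_eq]
      rfl
    rw [hip, hsum, inner_sum]
    have hn : ‖u‖ ^ 2 = ∑ j, ‖⟪b j, u⟫_ℂ‖ ^ 2 := (b.sum_sq_norm_inner_right u).symm
    rw [hn, Finset.mul_sum, Complex.re_sum]
    refine Finset.sum_le_sum fun j _ => ?_
    rw [inner_smul_right]
    have h3 : ⟪u, b j⟫_ℂ = (starRingEnd ℂ) ⟪b j, u⟫_ℂ := (inner_conj_symm _ _).symm
    have h4 : (⟪b j, u⟫_ℂ * (hH.eigenvalues j : ℂ) * ⟪u, b j⟫_ℂ).re =
        hH.eigenvalues j * ‖⟪b j, u⟫_ℂ‖ ^ 2 := by
      rw [h3, mul_right_comm, Complex.mul_conj, Complex.normSq_eq_norm_sq]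
      norm_cast
      rw [mul_comm]
    rw [h4]
    rcases le_or_gt (hH.eigenvalues j) E with hj | hj
    · exact mul_le_mul_of_nonneg_right hj (by positivity)
    · rw [h0 j hj]
      simp

end low

section few

open scoped BigOperators InnerProductSpace Matrix Classical ComplexOrder



/-- the number of the finite sets with less than `n` elements -/
theorem card_small {ι : Type} [Fintype ι] [DecidableEq ι] (n : ℕ) :
    ((Finset.univ : Finset (Finset ι)).filter fun F => F.card < n).card ≤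
      (Fintype.card ι + 1) ^ n := by
  classical
  set Φ : (Fin n → Option ι) → Finset ι := fun f => Finset.univ.filter fun i => ∃ j, f j = some i
    with hΦ
  have hsub : ((Finset.univ : Finset (Finset ι)).filter fun F => F.card < n) ⊆
      (Finset.univ : Finset (Fin n → Option ι)).image Φ := by
    intro F hF
    rw [Finset.mem_filter] at hF
    rw [Finset.mem_image]
    refine ⟨fun j => if h : j.1 < F.card then some (F.equivFin.symm ⟨j.1, h⟩).1 else none,
      Finset.mem_univ _, ?_⟩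
    ext i
    rw [hΦ]
    simp only [Finset.mem_filter, Finset.mem_univ, true_and]
    constructor
    · rintro ⟨j, hj⟩
      by_cases h : j.1 < F.card
      · rw [dif_pos h] at hj
        have := Option.some.inj hj
        rw [← this]
        exact (F.equivFin.symm ⟨j.1, h⟩).2
      · rw [dif_neg h] at hj
        cases hj
    · intro hi
      have h1 : (F.equivFin ⟨i, hi⟩).1 < F.card := (F.equivFin ⟨i, hi⟩).2
      refine ⟨⟨(F.equivFin ⟨i, hi⟩).1, by omega⟩, ?_⟩
      rw [dif_pos h1]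
      simp
  refine (Finset.card_le_card hsub).trans (Finset.card_image_le.trans ?_)
  rw [Finset.card_univ, Fintype.card_fun, Fintype.card_option, Fintype.card_fin]

/-- The case of few low energy levels, one torus. -/
theorem few_one (h1 : StmAbs) (h2 : StmLoc) (h3 : StmGapT) (h4 : StmEn) (h5 : StmGeo)
    (h6 : StmFinr) {d R L : ℕ} [NeZero L] {h : BoxOp d R} (hR : 1 ≤ R) (hh : h.PosSemidef)
    {Δ A₀ : ℝ} {a : ℕ} (hΔ : 0 < Δ) (hA : 0 ≤ A₀) (hgap : GapAll h L Δ) (hdeg : DegBound h L A₀ a)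
    {k s : ℕ} (hs : s = (2 * (k * (4 * R ^ 2 + 1)) + 2) * R) (hsL : 60 * s ≤ L)
    (hH : (ham h L).IsHermitian) (m n : ℕ)
    (hcond : ∀ N : ℝ, 0 ≤ N → N ≤ (L : ℝ) ^ 2 →
      wB (Δ / (nJ h + 1) / (((4 * R ^ 2 : ℕ) : ℝ) ^ 2 + Δ / (nJ h + 1))) (9 + 1) 9 * (m / Δ) +
        N * Real.sqrt (((4 * R ^ 2 : ℕ) : ℝ) ^ 2 / (((4 * R ^ 2 : ℕ) : ℝ) ^ 2 +
          Δ / (nJ h + 1))) ^ k *
          (5 * n + 2 * (N * wB (Δ / (nJ h + 1) / (((4 * R ^ 2 : ℕ) : ℝ) ^ 2 +
            Δ / (nJ h + 1))) (9 + 1) 9)) < n) :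
    (numStates hH m : ℝ) ≤ ((L : ℝ) ^ 2 + 1) ^ n * Real.exp (A₀ * n * ((60 * s : ℕ) : ℝ) ^ a) := by
  have hRL : R ≤ L := by
    have : R ≤ s := by rw [hs]; exact Nat.le_mul_of_pos_left _ (by omega)
    omega
  have hJ : 0 < nJ h + 1 := by have := nJ_nonneg h; linarith
  obtain ⟨ι, hι1, hι2, X, near, cor, g1, g2, g3, g4, g5, g6, g7⟩ :=
    h5 R L s (k * (4 * R ^ 2 + 1)) hR (by rw [hs]) hsL
  obtain ⟨S, hS1, hS2⟩ := low hH (m : ℝ)
  have hθ : ∀ u ∈ S, ∑ t, ‖u - pr (G (Vt h L) (X t)) u‖ ^ 2 ≤ (m : ℝ) / Δ * ‖u‖ ^ 2 := by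
    intro u hu
    have e1 := h4 d R L hR hRL h hh Δ hΔ hgap ι X g3 u.ofLp
    refine e1.trans ?_
    rw [div_mul_eq_mul_div]
    exact div_le_div_of_nonneg_right (hS2 u hu) hΔ.le
  have hab := h1 (EuclideanSpace ℂ (Site L → Fin d)) (Site L) ι (Vt h L) (adjR R L) (4 * R ^ 2)
    (Δ / (nJ h + 1)) (h2 d R L hR hRL h hh.isHermitian) (div_pos hΔ hJ)
    (h3 d R L hR hRL h hh Δ hΔ.le hgap) X near 9 k g2 g4 g5 g6 S (m / Δ) hθ n
    (hcond _ (Nat.cast_nonneg _) (by exact_mod_cast g1))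
  rw [hS1] at hab
  have hw1 : 1 ≤ 60 * s := by
    have : 1 ≤ s := by
      rw [hs]
      exact Nat.one_le_iff_ne_zero.2 (Nat.mul_ne_zero (by omega) (by omega))
    omega
  have hterm : ∀ F ∈ (Finset.univ : Finset (Finset ι)).filter (fun F => F.card < n),
      (Module.finrank ℂ (G (Vt h L) (Finset.univ \ hole (adjR R L) near X
        (k * (4 * R ^ 2 + 1)) (9 + 1) F)) : ℝ) ≤
        Real.exp (A₀ * n * ((60 * s : ℕ) : ℝ) ^ a) := by
    intro F hF
    rw [Finset.mem_filter] at hF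
    have e1 := h6 d R L hR h (60 * s) (F.image cor) (Finset.univ \ hole (adjR R L) near X
        (k * (4 * R ^ 2 + 1)) (9 + 1) F) (by
      intro u hu
      rw [Finset.mem_sdiff]
      refine ⟨Finset.mem_univ _, fun hmem => ?_⟩
      unfold hole at hmem
      rw [Finset.mem_biUnion] at hmem
      obtain ⟨t, ht, hut⟩ := hmem
      rw [Finset.mem_biUnion] at ht
      obtain ⟨f, hf, htf⟩ := ht
      have hu2 : u ∈ hole (adjR R L) near X (k * (4 * R ^ 2 + 1)) 10 {f} := by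
        unfold hole
        rw [Finset.mem_biUnion]
        refine ⟨t, ?_, hut⟩
        rw [Finset.mem_biUnion]
        exact ⟨f, Finset.mem_singleton_self _, htf⟩
      obtain ⟨y, hy⟩ := g7 f u hu2
      exact hu (cor f) (Finset.mem_image_of_mem _ hf) y hy)
    have e2 := hdeg (60 * s) (F.image cor) hw1 hsL
    refine (by exact_mod_cast e1 : (Module.finrank ℂ (G (Vt h L) (Finset.univ \ hole (adjR R L)
      near X (k * (4 * R ^ 2 + 1)) (9 + 1) F)) : ℝ) ≤ _).trans (e2.trans ?_)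
    apply Real.exp_le_exp.2
    apply mul_le_mul_of_nonneg_right _ (by positivity)
    apply mul_le_mul_of_nonneg_left _ hA
    have e3 : (F.image cor).card ≤ n := Finset.card_image_le.trans hF.2.le
    exact_mod_cast e3
  have hsum : (numStates hH m : ℝ) ≤ ∑ F ∈ (Finset.univ : Finset (Finset ι)).filter
      (fun F => F.card < n), Real.exp (A₀ * n * ((60 * s : ℕ) : ℝ) ^ a) := by
    refine le_trans ?_ (Finset.sum_le_sum hterm)
    exact_mod_cast hab
  refine hsum.trans ?_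
  rw [Finset.sum_const, nsmul_eq_mul]
  apply mul_le_mul_of_nonneg_right _ (Real.exp_pos _).le
  have e1 := card_small (ι := ι) n
  have e2 : (Fintype.card ι + 1) ^ n ≤ (L ^ 2 + 1) ^ n := Nat.pow_le_pow_left (by omega) n
  exact_mod_cast e1.trans e2




theorem log_le_eventually (c : ℝ) : ∃ L₁ : ℕ, ∀ L : ℕ, L₁ ≤ L → c * Real.log L ≤ L := by
  have h1 : (fun x : ℝ => Real.log x) =o[Filter.atTop] (fun x : ℝ => x) := Real.isLittleO_log_id_atTop
  have h2 := h1.def (show (0 : ℝ) < 1 / (|c| + 1) by positivity)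
  obtain ⟨x₀, hx₀⟩ := Filter.eventually_atTop.1 h2
  refine ⟨max 1 ⌈x₀⌉₊, fun L hL => ?_⟩
  have hL1 : 1 ≤ L := (le_max_left _ _).trans hL
  have hL2 : x₀ ≤ L := (Nat.le_ceil x₀).trans (by exact_mod_cast (le_max_right _ _).trans hL)
  have h3 := hx₀ L hL2
  have hL0 : (1 : ℝ) ≤ L := by exact_mod_cast hL1
  have hlog : 0 ≤ Real.log L := Real.log_nonneg hL0
  rw [Real.norm_of_nonneg hlog, Real.norm_of_nonneg (by linarith)] at h3
  have h4 : (|c| + 1) * Real.log L ≤ L := by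
    have := mul_le_mul_of_nonneg_left h3 (by positivity : (0 : ℝ) ≤ |c| + 1)
    rwa [← mul_assoc, mul_one_div_cancel (by positivity), one_mul] at this
  have h5 : c * Real.log L ≤ (|c| + 1) * Real.log L :=
    mul_le_mul_of_nonneg_right (by linarith [le_abs_self c]) hlog
  linarith

theorem wB_nonneg {γ : ℝ} (hγ : 0 ≤ γ) (c ν : ℕ) : 0 ≤ wB γ c ν := by
  unfold wB; positivity

theorem numStates_le {n : Type} [Fintype n] [DecidableEq n] {H : Matrix n n ℂ}
    (hH : H.IsHermitian) (E : ℝ) : numStates hH E ≤ Fintype.card n := by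
  unfold numStates
  exact Finset.card_le_univ _

theorem few (h1 : StmAbs) (h2 : StmLoc) (h3 : StmGapT) (h4 : StmEn) (h5 : StmGeo)
    (h6 : StmFinr) : StmFew := by
  intro d R h hd hR hh Δ A₀ a hΔ hA ⟨L₀, hL₀⟩
  have hJ : 0 < nJ h + 1 := by have := nJ_nonneg h; linarith
  obtain ⟨g, hg⟩ : ∃ g : ℝ, g = ((4 * R ^ 2 : ℕ) : ℝ) := ⟨_, rfl⟩
  obtain ⟨D', hD'⟩ : ∃ D' : ℝ, D' = Δ / (nJ h + 1) := ⟨_, rfl⟩
  have hD0 : 0 < D' := by rw [hD']; exact div_pos hΔ hJ
  have hg0 : 0 < g := by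
    rw [hg]
    have : 0 < 4 * R ^ 2 := by positivity
    exact_mod_cast this
  obtain ⟨γ, hγ⟩ : ∃ γ : ℝ, γ = D' / (g ^ 2 + D') := ⟨_, rfl⟩
  have hγ0 : 0 ≤ γ := by rw [hγ]; positivity
  obtain ⟨W, hW⟩ : ∃ W : ℝ, W = wB γ (9 + 1) 9 := ⟨_, rfl⟩
  have hW0 : 0 ≤ W := by rw [hW]; exact wB_nonneg hγ0 _ _
  obtain ⟨z, hz⟩ : ∃ z : ℝ, z = Real.sqrt (g ^ 2 / (g ^ 2 + D')) := ⟨_, rfl⟩
  have hz0 : 0 < z := by rw [hz]; positivity
  have hz1 : z < 1 := by
    rw [hz, Real.sqrt_lt' one_pos, div_lt_iff₀ (by positivity)]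
    linarith
  have hlz : Real.log z < 0 := Real.log_neg hz0 hz1
  obtain ⟨K, hK⟩ : ∃ K : ℝ, K = 5 / (-Real.log z) := ⟨_, rfl⟩
  have hK0 : 0 < K := by rw [hK]; exact div_pos (by norm_num) (by linarith)
  have hKz : K * Real.log z = -5 := by
    have hne : Real.log z ≠ 0 := hlz.ne
    rw [hK, div_mul_eq_mul_div, div_eq_iff (neg_ne_zero.2 hne)]
    ring
  obtain ⟨K₁, hK₁⟩ : ∃ K₁ : ℝ, K₁ = 5 * (W / Δ + 3) + 2 * W := ⟨_, rfl⟩
  obtain ⟨K₂, hK₂⟩ : ∃ K₂ : ℝ, K₂ = (2 * ((K + 1) * (g + 1)) + 2) * R := ⟨_, rfl⟩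
  have hR0 : (1 : ℝ) ≤ R := by exact_mod_cast hR
  have hK₂0 : 0 < K₂ := by rw [hK₂]; positivity
  obtain ⟨L₁, hL₁⟩ := log_le_eventually (60 * K₂)
  have hWΔ : 0 ≤ W / Δ := div_nonneg hW0 hΔ.le
  have hld : 0 ≤ Real.log d := Real.log_nonneg (by exact_mod_cast hd)
  have hB0 : 0 < (W / Δ + 3) * (3 + A₀ * (60 * K₂) ^ a) := by positivity
  refine ⟨Real.log d + (W / Δ + 3) * (3 + A₀ * (60 * K₂) ^ a), max (max L₀ L₁) (max 3 ⌈K₁⌉₊),
    by linarith, ?_⟩
  intro L _ hL hH m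
  have hLL₀ : L₀ ≤ L := (le_max_left _ _).trans ((le_max_left _ _).trans hL)
  have hLL₁ : L₁ ≤ L := (le_max_right _ _).trans ((le_max_left _ _).trans hL)
  have hL3 : 3 ≤ L := (le_max_left _ _).trans ((le_max_right _ _).trans hL)
  have hLK : K₁ ≤ L := (Nat.le_ceil _).trans
    (by exact_mod_cast (le_max_right _ _).trans ((le_max_right _ _).trans hL))
  have hL3' : (3 : ℝ) ≤ L := by exact_mod_cast hL3
  have hLpos : (0 : ℝ) < L := by linarith
  obtain ⟨l, hl⟩ : ∃ l : ℝ, l = Real.log L := ⟨_, rfl⟩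
  have hl1 : 1 ≤ l := by
    rw [hl, Real.le_log_iff_exp_le hLpos]
    linarith [Real.exp_one_lt_d9]
  have hexpl : Real.exp l = L := by rw [hl, Real.exp_log hLpos]
  rw [← hl]
  obtain ⟨lm, hlm⟩ : ∃ lm : ℝ, lm = l ^ (max a 1) := ⟨_, rfl⟩
  have hlm1 : l ≤ lm := by
    rw [hlm]
    calc l = l ^ 1 := (pow_one _).symm
      _ ≤ _ := pow_le_pow_right₀ hl1 (le_max_right _ _)
  have hlma : l ^ a ≤ lm := by rw [hlm]; exact pow_le_pow_right₀ hl1 (le_max_left _ _)
  rw [← hlm]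
  have hm0 : (0 : ℝ) ≤ m := Nat.cast_nonneg m
  rcases le_or_gt (m : ℝ) ((L : ℝ) ^ 2) with hmL | hmL
  · -- few low energy levels
    set k : ℕ := ⌈K * l⌉₊ with hk
    have hkl : K * l ≤ k := Nat.le_ceil _
    have hku : (k : ℝ) ≤ K * l + 1 := (Nat.ceil_lt_add_one (by positivity)).le
    have hzk : (L : ℝ) ^ 5 * z ^ k ≤ 1 := by
      have e1 : z ^ k = Real.exp (k * Real.log z) := by
        rw [← Real.log_pow, Real.exp_log (pow_pos hz0 k)]
      have e2 : (L : ℝ) ^ 5 = Real.exp (5 * l) := by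
        rw [← hexpl, ← Real.exp_nat_mul]
        norm_num
      rw [e1, e2, ← Real.exp_add]
      apply Real.exp_le_one_iff.2
      have e3 : (k : ℝ) * Real.log z ≤ K * l * Real.log z := mul_le_mul_of_nonpos_right hkl hlz.le
      have e4 : K * l * Real.log z = -5 * l := by rw [mul_right_comm, hKz]
      linarith
    obtain ⟨s, hs⟩ : ∃ s : ℕ, s = (2 * (k * (4 * R ^ 2 + 1)) + 2) * R := ⟨_, rfl⟩
    have hsr : (s : ℝ) ≤ K₂ * l := by
      have e1 : (s : ℝ) = (2 * (k * (g + 1)) + 2) * R := by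
        rw [hs, hg]; push_cast; ring
      rw [e1, hK₂]
      have e2 : (k : ℝ) ≤ (K + 1) * l := by nlinarith only [hku, hl1]
      have e3 : (k : ℝ) * (g + 1) ≤ (K + 1) * l * (g + 1) :=
        mul_le_mul_of_nonneg_right e2 (by linarith)
      have e4 : 2 * ((k : ℝ) * (g + 1)) + 2 ≤ (2 * ((K + 1) * (g + 1)) + 2) * l := by
        nlinarith only [e3, hl1]
      calc (2 * ((k : ℝ) * (g + 1)) + 2) * R ≤ ((2 * ((K + 1) * (g + 1)) + 2) * l) * R :=
            mul_le_mul_of_nonneg_right e4 (by linarith)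
        _ = _ := by ring
    have hsL : 60 * s ≤ L := by
      have e1 := hL₁ L hLL₁
      rw [← hl] at e1
      have e2 : ((60 * s : ℕ) : ℝ) ≤ L := by push_cast; nlinarith only [e1, hsr]
      exact_mod_cast e2
    set n : ℕ := ⌈W * (m / Δ)⌉₊ + 2 with hn
    have hWm : 0 ≤ W * (m / Δ) := by positivity
    have hn1 : W * (m / Δ) + 2 ≤ n := by
      rw [hn]; push_cast
      linarith [Nat.le_ceil (W * (m / Δ))]
    have hn2 : (n : ℝ) ≤ W * (m / Δ) + 3 := by
      rw [hn]; push_cast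
      linarith [(Nat.ceil_lt_add_one hWm).le]
    have hWm2 : W * (m / Δ) = W / Δ * m := by ring
    have hcond : ∀ N : ℝ, 0 ≤ N → N ≤ (L : ℝ) ^ 2 →
        W * (m / Δ) + N * z ^ k * (5 * n + 2 * (N * W)) < n := by
      intro N hN0 hN
      have hz' : 0 ≤ z ^ k := by positivity
      have e1 : (1 : ℝ) ≤ (L : ℝ) ^ 2 := by nlinarith only [hL3']
      have e2 : (n : ℝ) ≤ (W / Δ + 3) * (L : ℝ) ^ 2 := by
        have := mul_le_mul_of_nonneg_left hmL hWΔ
        rw [hWm2] at hn2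
        nlinarith only [this, hn2, e1]
      have e3 : 5 * (n : ℝ) + 2 * (N * W) ≤ K₁ * (L : ℝ) ^ 2 := by
        have := mul_le_mul_of_nonneg_right hN hW0
        rw [hK₁]
        nlinarith only [this, e2]
      have e4 : N * z ^ k * (5 * n + 2 * (N * W)) ≤ (L : ℝ) ^ 2 * z ^ k * (K₁ * (L : ℝ) ^ 2) := by
        apply mul_le_mul (mul_le_mul_of_nonneg_right hN hz') e3 (by positivity) (by positivity)
      have e5 : (L : ℝ) ^ 2 * z ^ k * (K₁ * (L : ℝ) ^ 2) ≤ 1 := by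
        have e6 : (L : ℝ) ^ 2 * z ^ k * (K₁ * (L : ℝ) ^ 2) ≤
            (L : ℝ) ^ 2 * z ^ k * (L * (L : ℝ) ^ 2) := by
          apply mul_le_mul_of_nonneg_left _ (by positivity)
          exact mul_le_mul_of_nonneg_right hLK (by positivity)
        have e7 : (L : ℝ) ^ 2 * z ^ k * (L * (L : ℝ) ^ 2) = (L : ℝ) ^ 5 * z ^ k := by ring
        linarith
      linarith
    have key := few_one h1 h2 h3 h4 h5 h6 hR hh hΔ hA (hL₀ L hLL₀).1 (hL₀ L hLL₀).2 hs hsL hH m n
      (by rw [← hg, ← hD', ← hγ, ← hW, ← hz]; exact hcond)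
    refine key.trans ?_
    have f1 : (L : ℝ) ^ 2 + 1 ≤ Real.exp (3 * l) := by
      have e2 : Real.exp (3 * l) = (L : ℝ) ^ 3 := by
        rw [← hexpl, ← Real.exp_nat_mul]
        norm_num
      rw [e2]
      nlinarith only [hL3', mul_nonneg (mul_nonneg hLpos.le hLpos.le) (by linarith : (0:ℝ) ≤ L - 3)]
    have f2 : ((L : ℝ) ^ 2 + 1) ^ n ≤ Real.exp (n * (3 * l)) := by
      rw [Real.exp_nat_mul]
      exact pow_le_pow_left₀ (by positivity) f1 n
    refine (mul_le_mul_of_nonneg_right f2 (Real.exp_pos _).le).trans ?_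
    rw [← Real.exp_add]
    apply Real.exp_le_exp.2
    have f3 : (((60 * s : ℕ) : ℝ)) ^ a ≤ (60 * K₂) ^ a * lm := by
      have e1 : ((60 * s : ℕ) : ℝ) ≤ 60 * K₂ * l := by push_cast; linarith
      calc (((60 * s : ℕ) : ℝ)) ^ a ≤ (60 * K₂ * l) ^ a := pow_le_pow_left₀ (by positivity) e1 a
        _ = (60 * K₂) ^ a * l ^ a := mul_pow _ _ _
        _ ≤ _ := mul_le_mul_of_nonneg_left hlma (by positivity)
    have f4 : (n : ℝ) * (3 * l) + A₀ * n * (((60 * s : ℕ) : ℝ)) ^ a ≤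
        n * ((3 + A₀ * (60 * K₂) ^ a) * lm) := by
      have e1 : A₀ * n * (((60 * s : ℕ) : ℝ)) ^ a ≤ A₀ * n * ((60 * K₂) ^ a * lm) :=
        mul_le_mul_of_nonneg_left f3 (by positivity)
      have e2 : (n : ℝ) * (3 * l) ≤ n * (3 * lm) :=
        mul_le_mul_of_nonneg_left (by linarith) (Nat.cast_nonneg n)
      calc _ ≤ (n : ℝ) * (3 * lm) + A₀ * n * ((60 * K₂) ^ a * lm) := add_le_add e2 e1
        _ = _ := by ring
    refine f4.trans ?_
    have hlm0 : 0 ≤ lm := by linarith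
    have f5 : (n : ℝ) ≤ (W / Δ + 3) * (m + 1) := by
      rw [hWm2] at hn2
      nlinarith only [hn2, hWΔ, hm0]
    have f6 : 0 ≤ (3 + A₀ * (60 * K₂) ^ a) * lm := by positivity
    calc (n : ℝ) * ((3 + A₀ * (60 * K₂) ^ a) * lm) ≤
          ((W / Δ + 3) * (m + 1)) * ((3 + A₀ * (60 * K₂) ^ a) * lm) :=
          mul_le_mul_of_nonneg_right f5 f6
      _ = ((W / Δ + 3) * (3 + A₀ * (60 * K₂) ^ a)) * (m + 1) * lm := by ring
      _ ≤ (Real.log d + (W / Δ + 3) * (3 + A₀ * (60 * K₂) ^ a)) * (m + 1) * lm := by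
          apply mul_le_mul_of_nonneg_right _ hlm0
          apply mul_le_mul_of_nonneg_right _ (by linarith)
          linarith
  · -- many levels: the dimension of the space
    have e1 : (numStates hH m : ℝ) ≤ (d : ℝ) ^ (L * L) := by
      have e2 := numStates_le hH (m : ℝ)
      have e3 : Fintype.card (Site L → Fin d) = d ^ (L * L) := by
        rw [Fintype.card_fun, Fintype.card_fin, Fintype.card_prod, ZMod.card]
      rw [e3] at e2
      exact_mod_cast e2
    refine e1.trans ?_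
    have hd0 : (0 : ℝ) < d := by exact_mod_cast hd
    have e4 : (d : ℝ) ^ (L * L) = Real.exp ((L : ℝ) ^ 2 * Real.log d) := by
      rw [← Real.exp_log (pow_pos hd0 (L * L)), Real.log_pow]
      push_cast
      congr 1
      ring
    rw [e4]
    apply Real.exp_le_exp.2
    have e5 : (L : ℝ) ^ 2 * Real.log d ≤ (m + 1) * Real.log d :=
      mul_le_mul_of_nonneg_right (by linarith) hld
    have hlm1' : 1 ≤ lm := by linarith
    have e6 : (m + 1 : ℝ) * Real.log d ≤
        (Real.log d + (W / Δ + 3) * (3 + A₀ * (60 * K₂) ^ a)) * (m + 1) := by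
      nlinarith only [hB0, hm0, mul_nonneg hB0.le (by linarith : (0:ℝ) ≤ (m:ℝ) + 1)]
    have e7 : 0 ≤ (Real.log d + (W / Δ + 3) * (3 + A₀ * (60 * K₂) ^ a)) * ((m : ℝ) + 1) := by
      have : 0 ≤ Real.log d + (W / Δ + 3) * (3 + A₀ * (60 * K₂) ^ a) := by linarith
      exact mul_nonneg this (by linarith)
    nlinarith only [e5, e6, mul_le_mul_of_nonneg_left hlm1' e7]

end few

end Pool.Agent.N281.FF
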